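import Pool.Agent.TH707.FS.Main

/-!
# How many strings of a random oracle have to be changed to refute the OR-distillation conjecture?

An adversary who knows the random oracle `O` changes, for all large `n`, at most `g n` of the
strings of length at most `n`; the result is the oracle `A` (`Close g O A`). Everything is relative
to `A`.

* If for every `ε > 0` there are infinitely many `n` with `g n ≤ 2 ^ (n ^ ε)`, then for almost every
  `O`, relative to all these `A`, the OR-distillation conjecture holds. Moreover, no `NP`-hard
  language has an OR-compression to any language, not even a nonuniform one (with advice of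
  polynomial length) which is defined only for the lists of `t = n ^ b + b` strings of length at
  most `n` and whose outputs have length `c t log (t + 2)`.
* Otherwise every oracle `O` can be changed such that all `NP`-complete languages have
  OR-distillations and AND-distillations.

For the first part: the theorem of Fortnow and Santhanam holds relative to every oracle
(`TH707.FS.fortnow_santhanam`), and for almost every `O`, relative to all these `A`, `NP` is not
contained in `coNP/poly` (W900).
-/

set_option autoImplicit false

namespace Pool.Agent.Results.MP_609cce_lc.ChangedStrings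

open Pool.Agent.NPC Pool.Agent.H620R2.Gauge Pool.Agent.TH680.OR Pool.Agent.TH707.FS
open Pool.Agent.W900.CH (Close)
open Pool.Agent.H628R3.RO (randomOracle)
open MeasureTheory Filter

/-- **The OR-distillation conjecture near random oracles.** -/
theorem result (g : ℕ → ℝ) :
    ((∀ ε : ℝ, 0 < ε → ∃ᶠ n : ℕ in atTop, g n ≤ 2 ^ (n : ℝ) ^ ε) →
      ∀ᵐ O ∂randomOracle, ∀ A : Oracle, Close g O A →
        (∃ L, NPCompleteRel A L) ∧ (∀ L, NPCompleteRel A L → ¬ ORDistillation A L) ∧
        ∀ L R : Set (List Bool), NPHardRel A L → ¬ WeakCompression A L R ∧ ¬ ORCompression A L R) ∧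
    ((¬ ∀ ε : ℝ, 0 < ε → ∃ᶠ n : ℕ in atTop, g n ≤ 2 ^ (n : ℝ) ^ ε) →
      ∀ O : Oracle, ∃ A : Oracle, Close g O A ∧ (∃ L, NPCompleteRel A L) ∧
        ∀ L, NPCompleteRel A L → ORDistillation A L ∧ ANDDistillation A L) := by
  refine ⟨fun hg => ?_, fun hg O => ?_⟩
  · filter_upwards [W900.CH.ae_coNP hg] with O hO A hA
    exact ⟨exists_npc A, fun L hL => (no_compression (hO A hA) hL.2).2,
      fun L R hL => no_compression (hO A hA) hL⟩
  · obtain ⟨A, h1, h2⟩ := W900.CH.exists_close_PSPACE hg O
    exact ⟨A, h1, exists_npc A, fun L hL => distillation_of h2 hL⟩

end Pool.Agent.Results.MP_609cce_lc.ChangedStrings
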