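import Pool.Agent.TH680.OR.Law
import Pool.Agent.TH680.OR.Col
import Pool.Agent.TH680.LV.Join
import Pool.Agent.TH680.DT.Empty
import Pool.Agent.H591R3.PHG.Sig

/-!
# The distillation conjectures relative to random oracles: the exact density threshold

The strings `x` are put into the oracle `A` independently, with a probability `q |x|` that depends on
the length only, where `q` is an arbitrary function (`rand q` is the distribution of `A`). Let
`rare q n = 2 ^ n * min (q n) (1 - q n)`, the expected number of the strings of length `n` for which
`A` has the less probable value. Let `Q` be any further oracle.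

(1) If the series `∑ rare q n` diverges then, for almost all `A`, no language which is `NP`-hard
relative to `Q ⊕ A` has an OR-compression or an AND-compression, to any language whatsoever,
relative to `Q ⊕ A`; in particular, no such language has a distillation.

(2) If the series converges then there is an oracle `Q` such that, for almost all `A`, all languages
which are `NP`-complete relative to `Q ⊕ A` have OR-distillations and AND-distillations.

(3) So there is a law for all these random oracles: almost surely the OR-distillation conjecture
holds relative to `Q ⊕ A` if and only if the series diverges or it holds relative to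
`Q ⊕ common q`, where `common q` is the oracle of the more probable values; if `common q` is in `P`
(for instance empty, that is, if `q n ≤ 1 / 2` for all `n`): if and only if the series diverges or
it holds relative to `Q ⊕ ∅`. The same holds for the AND-distillation conjecture.

(1) does not follow from the theorem of Fortnow and Santhanam: if `q n ≤ 1 / 2`, if `rare q n` is
bounded by a polynomial and if `Q` is complete for `PSPACE`, then `NP` is contained in `coNP/poly`,
and even in `P/poly`, relative to `Q ⊕ A`, for almost all `A`.

The proof of (1). For a length `N`, consider `2 ^ n` groups of `k` strings of length `N`, where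
`n ≥ √N`; a group is a witness if all its bits are the less probable ones. One can choose `n` and
`k` such that the expected number `μ` of the witnesses is at most `1 / 2` and at least
`min (rare q N) (1 / 4)`. An instance asks for a witness whose number begins with a given string
`u` of length `n / 2` (for the AND-compression: does not begin with `u`). Let `B` be the bound for
the length of the compressed lists of these instances. Let `A` be an oracle without a witness of
length `N`, relative to which the compression is right. Suppose that it is also right relative to
more than `3 / 4` of the `2 ^ n` oracles that one gets from `A` by putting in one witness. Then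
there are `B + 2` strings `u` such that it is right for at least half of the witnesses beginning
with `u`. There are more nonempty sets of such `u` than strings of length at most `B`, so two
different sets `S`, `S'` have the same compression relative to `A`. Let `u` be in `S` but not in
`S'`; one can put in a witness beginning with `u` about which the algorithm does not ask relative to
`A`, for `S` and for `S'`; then the compressions are still the same, but the answers for `S` and
for `S'` are different, a contradiction. So a property of the oracle (`the compression is right')
is destroyed by a quarter of the possible witnesses; by the divergence of the series and a second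
moment argument it has probability zero (`OR/Engine`, a generalization of the engine of the
hand-in `MP_0e79d0_lc.DensityThreshold`).
-/

set_option autoImplicit false

namespace Pool.Agent.Results.MP_609cce_lc.DensityThreshold

open MeasureTheory Pool.Agent.NPC Pool.Agent.H620R2.Gauge Pool.Agent.TH680.OR
open Pool.Agent.W900.IE (indep)

/-- The distribution of the random oracle: the strings `x` are in the oracle with probability
`q |x|`, independently. -/
noncomputable def rand (q : ℕ → unitInterval) : Measure Oracle := indep (fun x => q x.length)

/-- The expected number of the strings of length `n` for which the random oracle has the less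
probable value. -/
noncomputable def rare (q : ℕ → unitInterval) (n : ℕ) : ℝ := 2 ^ n * min (q n : ℝ) (1 - q n)

/-- The oracle of the more probable values. -/
noncomputable def common (q : ℕ → unitInterval) : Oracle := fun x =>
  decide ((1 / 2 : ℝ) < q x.length)

/-- The empty oracle. -/
def empty : Oracle := fun _ => false

/-- The disjoint union of the oracles `Q` and `A`. -/
def join (Q A : Oracle) : Oracle
  | [] => false
  | false :: z => Q z
  | true :: z => A z

/-- The OR-distillation conjecture relative to `O`: no language complete for `NP` relative to `O`
(under polynomial-time many-one reductions relative to `O`) has an OR-distillation relative to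
`O`. -/
def ORConjecture (O : Oracle) : Prop := ∀ L, NPCompleteRel O L → ¬ ORDistillation O L

/-- The AND-distillation conjecture relative to `O`. -/
def ANDConjecture (O : Oracle) : Prop := ∀ L, NPCompleteRel O L → ¬ ANDDistillation O L

theorem join_eq : TH680.OD.join = join := by
  funext Q A x
  rcases x with _ | ⟨b, z⟩
  · rfl
  · cases b <;> rfl

theorem rare_eq (q : ℕ → unitInterval) : W900.IE.dev (TH680.DT.pq q) = rare q := by
  funext n
  unfold W900.IE.dev TH680.DT.pq rare
  have h : ∀ v : Fin n → Bool, min (q (List.ofFn v).length : ℝ) (1 - q (List.ofFn v).length) =
      min (q n : ℝ) (1 - q n) := fun v => by rw [List.length_ofFn]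
  rw [Finset.sum_congr rfl fun v _ => h v, Finset.sum_const, nsmul_eq_mul, Finset.card_univ]
  simp

theorem poly_join {E : List Bool → Bool} (hE : Poly E) :
    Poly (fun x : List Bool => decide (x.head? = some true) && E x.tail) :=
  Poly.and (Poly.decide_eq (Poly.head? Poly.id) (NPC.Poly.const _)) (hE.comp (Poly.tail Poly.id))

theorem join_xor (Q : Oracle) {A D : Oracle} {E : List Bool → Bool}
    (h : ∀ x, D x = (A x ^^ E x)) (x : List Bool) :
    join Q D x = (join Q A x ^^ (decide (x.head? = some true) && E x.tail)) := by
  rcases x with _ | ⟨b, z⟩
  · rfl
  · cases b with
    | false => simp [join]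
    | true =>
      show D z = _
      rw [h]
      simp [join]

/-- if the same functions are computable then the same conjectures hold -/
theorem same_conj {O O' : Oracle} (h : ∀ F, IsFP O F ↔ IsFP O' F) :
    (∀ L, NPCompleteRel O L ↔ NPCompleteRel O' L) ∧
      (∀ L R, ORCompression O L R ↔ ORCompression O' L R) ∧
      (∀ L R, ANDCompression O L R ↔ ANDCompression O' L R) := by
  have hN : ∀ L, IsNP O L ↔ IsNP O' L := fun L => by
    unfold IsNP
    simp only [h]
  refine ⟨fun L => ?_, fun L R => ?_, fun L R => ?_⟩
  · unfold NPCompleteRel NPHardRel
    simp only [h, hN]
  · unfold ORCompression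
    simp only [h]
  · unfold ANDCompression
    simp only [h]

/-- **The distillation conjectures relative to random oracles: the exact density threshold.** -/
theorem result (q : ℕ → unitInterval) :
    (¬ Summable (rare q) → ∀ Q : Oracle, ∀ᵐ A ∂(rand q), ∀ L R : Set (List Bool),
      NPHardRel (join Q A) L → ¬ ORCompression (join Q A) L R ∧ ¬ ANDCompression (join Q A) L R) ∧
    (Summable (rare q) → ∃ Q : Oracle, ∀ᵐ A ∂(rand q), (∃ L, NPCompleteRel (join Q A) L) ∧
      ∀ L, NPCompleteRel (join Q A) L → ORDistillation (join Q A) L ∧ ANDDistillation (join Q A) L) ∧
    (∀ Q : Oracle, ∀ᵐ A ∂(rand q),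
      (ORConjecture (join Q A) ↔ (¬ Summable (rare q) ∨ ORConjecture (join Q (common q)))) ∧
      (ANDConjecture (join Q A) ↔ (¬ Summable (rare q) ∨ ANDConjecture (join Q (common q))))) ∧
    (IsP empty {x | common q x = true} → ∀ Q : Oracle, ∀ᵐ A ∂(rand q),
      (ORConjecture (join Q A) ↔ (¬ Summable (rare q) ∨ ORConjecture (join Q empty))) ∧
      (ANDConjecture (join Q A) ↔ (¬ Summable (rare q) ∨ ANDConjecture (join Q empty)))) := by
  have h1 : ¬ Summable (rare q) → ∀ Q : Oracle, ∀ᵐ A ∂(rand q), ∀ L R : Set (List Bool),
      NPHardRel (join Q A) L → ¬ ORCompression (join Q A) L R ∧ ¬ ANDCompression (join Q A) L R := by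
    intro h Q
    have h0 := not_compr (q := q) h Q
    rw [join_eq] at h0
    filter_upwards [h0] with A hA L R hL
    refine ⟨?_, ?_⟩
    · rintro ⟨D, p, hD, h2⟩
      exact hA false L R hL ⟨D, p, hD, h2⟩
    · rintro ⟨D, p, hD, h2⟩
      exact hA true L R hL ⟨D, p, hD, h2⟩
  have h2 : Summable (rare q) → ∀ᵐ A ∂(rand q), Poly (fun x => (A x ^^ common q x)) := by
    intro h
    rw [← rare_eq] at h
    exact TH680.DT.ae_same h
  have hx : ∀ A : Oracle, ∀ x, common q x = (A x ^^ (A x ^^ common q x)) := fun A x => by
    cases A x <;> cases common q x <;> rfl
  have hsame : ∀ {O O' : Oracle}, (∀ F, IsFP O F ↔ IsFP O' F) →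
      (ORConjecture O ↔ ORConjecture O') ∧ (ANDConjecture O ↔ ANDConjecture O') := by
    intro O O' h
    obtain ⟨h3, h4, h5⟩ := same_conj h
    unfold ORConjecture ANDConjecture ORDistillation ANDDistillation
    simp only [h3, h4, h5, and_self]
  have h3 : ∀ Q : Oracle, ∀ᵐ A ∂(rand q),
      (ORConjecture (join Q A) ↔ (¬ Summable (rare q) ∨ ORConjecture (join Q (common q)))) ∧
      (ANDConjecture (join Q A) ↔
        (¬ Summable (rare q) ∨ ANDConjecture (join Q (common q)))) := by
    intro Q
    by_cases h : Summable (rare q)
    · filter_upwards [h2 h] with A hA
      have h4 := hsame (TH680.DT.same_isFP (poly_join hA) (join_xor Q (hx A)))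
      rw [h4.1, h4.2]
      simp [h]
    · filter_upwards [h1 h Q] with A hA
      refine ⟨⟨fun _ => Or.inl h, fun _ L hL => (hA L L hL.2).1⟩,
        ⟨fun _ => Or.inl h, fun _ L hL => (hA L L hL.2).2⟩⟩
  refine ⟨h1, fun h => ?_, h3, fun hq Q => ?_⟩
  · obtain ⟨Q, hQ⟩ := TH680.LV.exists_above (C := common q) (fun x y hxy => by
      unfold common
      rw [hxy])
    rw [join_eq] at hQ
    refine ⟨Q, ?_⟩
    filter_upwards [h2 h] with A hA
    have hF := TH680.DT.same_isFP (poly_join hA) (join_xor Q (hx A))
    have hS := TH680.DT.same_isPSPACE (poly_join hA) (join_xor Q (hx A))
    have hNP : ∀ L, IsNP (join Q A) L → IsP (join Q A) L := by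
      intro L hL
      have h4 : Pool.Agent.H591R3.PHG.IsSig (join Q A) 1 L := hL
      obtain ⟨V, hV, h5⟩ := hQ L ((hS L).1 h4.isPH.isPSPACE)
      exact ⟨V, (hF V).2 hV, h5⟩
    exact ⟨exists_complete hNP, fun L hL => dist_of_eq hNP hL⟩
  · have hc : Poly (common q) := by
      obtain ⟨V, hV, hL⟩ := hq
      have h3 := TH680.DT.poly_of_isFP_empty hV
      refine (Poly.decide_eq h3 (NPC.Poly.const [true])).congr fun x => ?_
      have h4 := hL x
      rw [Set.mem_ofPred_eq] at h4
      rw [Bool.eq_iff_iff, h4, decide_eq_true_eq]
    have he : ∀ x, empty x = (common q x ^^ common q x) := fun x => by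
      unfold empty
      cases common q x <;> rfl
    filter_upwards [h3 Q] with A hA
    have h4 := hsame (TH680.DT.same_isFP (poly_join hc) (join_xor Q he))
    rw [hA.1, hA.2, h4.1, h4.2]
    exact ⟨Iff.rfl, Iff.rfl⟩

end Pool.Agent.Results.MP_609cce_lc.DensityThreshold
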