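import Pool.Agent.TH707.FS.Main

/-!
# The size of the set of the oracles with OR-distillations

For every gauge `f`, each of the following sets of oracles `A` is a null set for `f` if and only if,
for every `ε > 0`, `f N ≤ 2 ^ ((log N) ^ ε)` for infinitely many `N`:

* the OR-distillation conjecture fails relative to `A`: some `NP`-complete language has an
  OR-distillation;
* some `NP`-hard language has an OR-compression to some language, or only a nonuniform one (with
  advice of polynomial length) which is defined for the lists of `t = n ^ b + b` strings of length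
  at most `n` and whose outputs have length `c t log (t + 2)` (`WeakCompression`);
* all `NP`-complete languages have OR-distillations and AND-distillations.
-/

set_option autoImplicit false

namespace Pool.Agent.Results.MP_609cce_lc.GaugeThreshold

open Pool.Agent.NPC Pool.Agent.H620R2.Gauge Pool.Agent.TH680.OR Pool.Agent.TH707.FS
open Filter

/-- **The gauge size of the set of the oracles with OR-distillations.** -/
theorem result (f : ℕ → ℝ) :
    (Null f {A : Oracle | ∃ L, NPCompleteRel A L ∧ ORDistillation A L} ↔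
        ∀ ε : ℝ, 0 < ε → ∃ᶠ N : ℕ in atTop, f N ≤ 2 ^ (Real.logb 2 N) ^ ε) ∧
      (Null f {A : Oracle | ∃ L R : Set (List Bool), NPHardRel A L ∧
          (WeakCompression A L R ∨ ORCompression A L R)} ↔
        ∀ ε : ℝ, 0 < ε → ∃ᶠ N : ℕ in atTop, f N ≤ 2 ^ (Real.logb 2 N) ^ ε) ∧
      (Null f {A : Oracle | ∀ L, NPCompleteRel A L → ORDistillation A L ∧ ANDDistillation A L} ↔
        ∀ ε : ℝ, 0 < ε → ∃ᶠ N : ℕ in atTop, f N ≤ 2 ^ (Real.logb 2 N) ^ ε) := by
  have up : ∀ X : Set Oracle, (∀ A ∈ X, ∃ L R : Set (List Bool), NPHardRel A L ∧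
      (WeakCompression A L R ∨ ORCompression A L R)) →
      (∀ ε : ℝ, 0 < ε → ∃ᶠ N : ℕ in atTop, f N ≤ 2 ^ (Real.logb 2 N) ^ ε) → Null f X := by
    intro X hX hf
    refine (W900.CH.null_coNP f hf).mono fun A hA => ?_
    obtain ⟨L, R, h1, h2⟩ := hX A hA
    intro L' hL'
    exact fortnow_santhanam h1 (h2.elim id weak_of_compression) hL'
  have down : ∀ X : Set Oracle,
      (∀ A : Oracle, (∀ L, NPCompleteRel A L → ORDistillation A L ∧ ANDDistillation A L) →
        A ∈ X) →
      Null f X → ∀ ε : ℝ, 0 < ε → ∃ᶠ N : ℕ in atTop, f N ≤ 2 ^ (Real.logb 2 N) ^ ε := by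
    intro X hX hn ε hε
    by_contra hcon
    rw [Filter.not_frequently] at hcon
    exact not_null f ε hε (hcon.mono fun N h => not_le.1 h) _
      (fun A hA => hX A fun L hL => distillation_of hA hL) hn
  refine ⟨⟨down _ ?_, up _ ?_⟩, ⟨down _ ?_, up _ ?_⟩, ⟨down _ ?_, up _ ?_⟩⟩
  · intro A hA
    obtain ⟨L, hL⟩ := exists_npc A
    exact ⟨L, hL, (hA L hL).1⟩
  · rintro A ⟨L, h1, h2⟩
    exact ⟨L, L, h1.2, Or.inr h2⟩
  · intro A hA
    obtain ⟨L, hL⟩ := exists_npc A
    exact ⟨L, L, hL.2, Or.inr (hA L hL).1⟩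
  · exact fun A hA => hA
  · exact fun A hA => hA
  · intro A hA
    obtain ⟨L, hL⟩ := exists_npc A
    exact ⟨L, L, hL.2, Or.inr (hA L hL).1⟩

end Pool.Agent.Results.MP_609cce_lc.GaugeThreshold
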