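import Pool.Agent.TH684.DI.Thm

/-!
# OR-distillation of an `NP`-hard language gives `NP = coNP`

Polynomial time is Mathlib's `Turing.TM2ComputableInPolyTime`, for functions on bit strings.

Fortnow and Santhanam: if some `NP`-complete language has an OR-distillation then
`NP ⊆ coNP/poly`. We show that then `NP = coNP`. The language may be any `NP`-hard one, the target may
be any language `B`, the algorithm may even be nondeterministic (at least one output on every list,
all outputs right), and it suffices that it works for `t = n ^ b + b` instances of length at most `n`
and has outputs of `O (t log n)` bits: the whole range of the theorem of Fortnow and Santhanam.
With nondeterministic algorithms the converse holds too.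

This cannot be improved to `P = NP` by a relativizing proof: by the starting file
`MP_609cce_lc.RelativizedDistillation` there is an oracle relative to which `P ≠ NP = coNP` and all
`NP`-complete languages have OR-distillations.

Proof. Let `A` be `NP`-hard, and let `D` be an OR-compression of `A`. From a list of `t * M` strings,
in `t` blocks of length `M`, where `M = 2 (n + 2) ^ (c + 1)`, one can choose one string from each
block. There are more choices than possible outputs, so two different choices `I`, `I'` have a common
output, and the OR of the answers is the same for `I` and for `I'`. If `i` belongs to `I` only, then it
is impossible that the string number `i` is the only one of the list that is in `A`. So a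
nondeterministic algorithm finds, in every list of polynomially many strings, one that is not the only
member of `A`. For example such a string can be removed from a list of formulas which come from the
nodes of a level of the search tree for a satisfying assignment: if one of the formulas is satisfiable
then also one of the others. Lists of polynomial length remain, all of whose members are wrong at the
last level if there is no satisfying assignment, and this is the certificate. (In Lean we cite the more
general theorem on the nondeterministic exclusion of one vector of answers, which we proved for
`MP_fa4772_lc.NondetThresholdGate`.)
-/

set_option autoImplicit false

namespace Pool.Agent.Results.MP_609cce_lc.UniformCollapse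

open Pool.Agent.NPC Pool.Agent.TH684.DI

/-- **OR-distillation of an `NP`-hard language gives `NP = coNP`.** First part: if an `NP`-hard
language `A` has an OR-distillation into `B` (for instance `B = A`), then `NP = coNP`. Second part: the
following are equivalent: `NP = coNP`; some `NP`-hard language has a nondeterministic OR-distillation;
some `NP`-hard language has a nondeterministic OR-compression, of `t = n ^ b + b` instances of length
at most `n` to `c t log₂ (n + 2)` bits; all languages in `NP` have nondeterministic
OR-distillations. -/
theorem result :
    (∀ A B : Set (List Bool), NPHard A → Distills (SomeIn A) B →
      ∀ S : Set (List Bool), InNP S → InNP Sᶜ) ∧
    List.TFAE
      [∀ S : Set (List Bool), InNP S → InNP Sᶜ,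
        ∃ A B : Set (List Bool), NPHard A ∧ NDistills (SomeIn A) B,
        ∃ A B : Set (List Bool), NPHard A ∧ NCompresses (SomeIn A) B,
        ∀ A : Set (List Bool), InNP A → ∃ B : Set (List Bool), NDistills (SomeIn A) B] :=
  ⟨fun _ _ hA h _ hS => compl_of_or hA (ncompresses_of_ndistills (ndistills_of_distills h)) hS,
    or_tfae⟩

end Pool.Agent.Results.MP_609cce_lc.UniformCollapse
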